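import Pool.Agent.N170.LS.LLG

/-!
# The local estimate in the mean for families of multipliers (helper44), after helper170, helper262
-/

set_option autoImplicit false

namespace Pool.Agent.T9h44.LS

open MeasureTheory Pool.Agent.N303.LS Pool.Agent.N492.LS Pool.Agent.N262.LS Pool.Agent.N170.LS
open scoped ENNReal FourierTransform RealInnerProductSpace SchwartzMap ComplexConjugate

section

variable {d : ℕ} {Ω : Type} [Fintype Ω]

/-- `∑_ω ∫_{[0,1]^d} |∑_{m ∈ S} a^ω_m c_m exp(2πi m·x)|^p dx ≤ Λ^p (∑_{m ∈ S} |c_m|²)^(p/2)` for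
all `c` -/
def LamM (p Λ : ℝ) (S : Finset (Fin d → ℤ)) (a : Ω → (Fin d → ℤ) → ℂ) : Prop :=
  ∀ c : (Fin d → ℤ) → ℂ,
    ∑ ω, ∫⁻ x in {x : E d | ∀ i, x i ∈ Set.Ico (0 : ℝ) 1}, ‖∑ m ∈ S, a ω m * c m *
      Complex.exp (((2 * Real.pi * ⟪x, pt m⟫ : ℝ) : ℂ) * Complex.I)‖ₑ ^ p ≤
      ENNReal.ofReal (Λ ^ p) * (∑ m ∈ S, ‖c m‖ₑ ^ (2 : ℝ)) ^ (p / 2)

theorem lamM_Q {p Λ : ℝ} {S : Finset (Fin d → ℤ)} {α : Ω → (Fin d → ℤ) → ℂ} (hL : LamM p Λ S α)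
    (b : (Fin d → ℤ) → ℂ) (w : E d) :
    ∑ ω, ∫⁻ x in Q w, ‖tp S (fun m => α ω m * b m) x‖ₑ ^ p ≤
      ENNReal.ofReal (Λ ^ p) * (∑ m ∈ S, ‖b m‖ₑ ^ (2 : ℝ)) ^ (p / 2) := by
  have h := hL fun m => b m * e ⟪w, pt m⟫
  have h1 : ∀ m, ‖b m * e ⟪w, pt m⟫‖ₑ = ‖b m‖ₑ := fun m => by rw [enorm_mul, enorm_e, mul_one]
  simp only [h1] at h
  refine le_trans (le_of_eq ?_) h
  refine Finset.sum_congr rfl fun ω _ => ?_
  rw [trans_Q]
  have h2 : (Q (0 : E d)) = {x : E d | ∀ i, x i ∈ Set.Ico (0 : ℝ) 1} := by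
    ext x
    unfold Q
    simp
  rw [h2]
  refine lintegral_congr fun y => ?_
  congr 2
  unfold tp
  refine Finset.sum_congr rfl fun m _ => ?_
  show α ω m * b m * e ⟪y + w, pt m⟫ = α ω m * (b m * e ⟪w, pt m⟫) * e ⟪y, pt m⟫
  rw [inner_add_left, e_add]
  ring

theorem lamM_cu {p Λ : ℝ} {S : Finset (Fin d → ℤ)} {α : Ω → (Fin d → ℤ) → ℂ} (hL : LamM p Λ S α)
    (b : (Fin d → ℤ) → ℂ) (z : E d) :
    ∑ ω, ∫⁻ x in cu 1 z, ‖tp S (fun m => α ω m * b m) x‖ₑ ^ p ≤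
      (3 : ℝ≥0∞) ^ d * (ENNReal.ofReal (Λ ^ p) * (∑ m ∈ S, ‖b m‖ₑ ^ (2 : ℝ)) ^ (p / 2)) := by
  have h0 : ∀ ω, ∫⁻ x in cu 1 z, ‖tp S (fun m => α ω m * b m) x‖ₑ ^ p ≤
      ∑ k, ∫⁻ x in Q (cor z k), ‖tp S (fun m => α ω m * b m) x‖ₑ ^ p := fun ω => by
    refine (lintegral_mono_set (cover z)).trans ?_
    refine (lintegral_iUnion_le _ _).trans ?_
    rw [tsum_fintype]
  refine (Finset.sum_le_sum fun ω _ => h0 ω).trans ?_
  rw [Finset.sum_comm]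
  refine (Finset.sum_le_sum fun k _ => lamM_Q hL b (cor z k)).trans (le_of_eq ?_)
  rw [Finset.sum_const, Finset.card_univ, nsmul_eq_mul]
  simp

/-- the estimate for one kernel -/
theorem oneM (k : 𝓢(E d, ℂ)) {H : E d → ℂ} (hH : Integrable H) (z : E d)
    (A : Finset (Fin d → ℤ)) (α : Ω → (Fin d → ℤ) → ℂ) {p Λ : ℝ} (hp : 2 ≤ p) (hL : LamM p Λ A α)
    {N : ℝ≥0∞} (hN : ∀ ξ : E d, ∑ m ∈ A, ‖bw H (ξ + pt m)‖ₑ ^ (2 : ℝ) ≤ N) :
    ∑ ω, ∫⁻ x in cu 1 z, ‖op k A (α ω) H x‖ₑ ^ p ≤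
      (∫⁻ ξ : E d, ‖𝓕 (k : E d → ℂ) ξ‖ₑ) ^ (p - 1) * (∫⁻ ξ : E d, ‖𝓕 (k : E d → ℂ) ξ‖ₑ) *
        (3 ^ d * (ENNReal.ofReal (Λ ^ p) * N ^ (p / 2))) := by
  have h0 : ∀ ω, ∫⁻ x in cu 1 z, ‖op k A (α ω) H x‖ₑ ^ p ≤
      (∫⁻ ξ : E d, ‖𝓕 (k : E d → ℂ) ξ‖ₑ) ^ (p - 1) * ∫⁻ ξ : E d, ‖𝓕 (k : E d → ℂ) ξ‖ₑ *
        ∫⁻ x in cu 1 z, ‖tp A (fun m => α ω m * bw H (ξ + pt m)) x‖ₑ ^ p := by
    intro ω
    refine (setLIntegral_mono' (cu_meas 1 z) fun x _ =>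
      pww k hH x A (α ω) (p := p) (by linarith)).trans ?_
    rw [lintegral_const_mul' _ _ (ENNReal.rpow_ne_top_of_nonneg (by linarith) (fK_top k))]
    refine mul_le_mul' le_rfl ?_
    rw [lintegral_lintegral_swap]
    · refine lintegral_mono fun ξ => ?_
      rw [lintegral_const_mul' _ _ enorm_ne_top]
    · refine Measurable.aemeasurable ?_
      exact ((fK_meas k).comp measurable_snd).mul
        ((tpw_cont hH A (α ω)).measurable.enorm.pow_const _)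
  refine (Finset.sum_le_sum fun ω _ => h0 ω).trans ?_
  rw [← Finset.mul_sum, mul_assoc]
  refine mul_le_mul' le_rfl ?_
  rw [← lintegral_finset_sum', ← lintegral_mul_const _ (fK_meas k)]
  · refine lintegral_mono fun ξ => ?_
    show ∑ ω, ‖𝓕 (k : E d → ℂ) ξ‖ₑ *
      ∫⁻ x in cu 1 z, ‖tp A (fun m => α ω m * bw H (ξ + pt m)) x‖ₑ ^ p ≤ _
    rw [← Finset.mul_sum]
    gcongr
    refine (lamM_cu hL (fun m => bw H (ξ + pt m)) z).trans ?_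
    gcongr
    exact hN ξ
  · intro ω _
    refine Measurable.aemeasurable ?_
    refine (fK_meas k).mul ?_
    refine Measurable.lintegral_prod_right' (f := fun y : E d × E d =>
      ‖tp A (fun m => α ω m * bw H (y.1 + pt m)) y.2‖ₑ ^ p) ?_
    exact (((tpw_cont hH A (α ω)).comp (continuous_snd.prodMk continuous_fst)).measurable.enorm.pow_const _)

end

/-- the local estimate in the mean -/
theorem t_llgM (h1 : S_PD) (h2 : S_BW) (d M : ℕ) (p : ℝ) (hp : 2 ≤ p) (K : 𝓢(E d, ℂ)) :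
    ∃ C : ℝ, 0 < C ∧ ∀ (Ω : Type) [Fintype Ω] (S : Finset (Fin d → ℤ))
      (a : Ω → (Fin d → ℤ) → ℂ) (Λ : ℝ), 0 ≤ Λ →
      LamM p Λ S a → ∀ F : E d → ℂ, Integrable F → ∀ z : E d,
      ∑ ω, ∫⁻ x in {x : E d | ∀ i, |x i - z i| ≤ 1}, ‖inv (fun ξ => psia K S (a ω) ξ * F ξ) x‖ₑ ^ p ≤
        ENNReal.ofReal (C * Λ ^ p) * nrg M (inv F) z ^ (p / 2) := by
  have hp0 : 0 < p := by linarith
  obtain ⟨B, C, hC, hB, hbw⟩ := h2 d M
  obtain ⟨n, P, k, hPc, hP⟩ := h1 d B K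
  have hD : ∀ i, ∃ D : ℝ, ∀ y ∈ cu 1 (0 : E d), ‖P i y‖ ≤ D := fun i =>
    (cu_compact 1 (0 : E d)).exists_bound_of_continuousOn (hPc i).continuousOn
  choose D hD using hD
  obtain ⟨κ, hκ⟩ : ∃ κ : Fin n → ℝ≥0∞, κ = fun i => ∫⁻ ξ : E d, ‖𝓕 (k i : E d → ℂ) ξ‖ₑ := ⟨_, rfl⟩
  have hκt : ∀ i, κ i ≠ ⊤ := fun i => by rw [hκ]; exact fK_top (k i)
  obtain ⟨C', hC'⟩ : ∃ C' : ℝ≥0∞, C' = (n : ℝ≥0∞) ^ (p - 1) * ∑ i : Fin n,
    ENNReal.ofReal (D i) ^ p * (κ i ^ (p - 1) * κ i * 3 ^ d * ENNReal.ofReal C ^ (p / 2)) :=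
    ⟨_, rfl⟩
  have hC't : C' ≠ ⊤ := by
    rw [hC']
    refine ENNReal.mul_ne_top (ENNReal.rpow_ne_top_of_nonneg (by linarith) (by simp)) ?_
    refine ENNReal.sum_ne_top.2 fun i _ => ?_
    refine ENNReal.mul_ne_top (ENNReal.rpow_ne_top_of_nonneg (by linarith) ENNReal.ofReal_ne_top) ?_
    refine ENNReal.mul_ne_top (ENNReal.mul_ne_top (ENNReal.mul_ne_top
      (ENNReal.rpow_ne_top_of_nonneg (by linarith) (hκt i)) (hκt i)) (by finiteness))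
      (ENNReal.rpow_ne_top_of_nonneg (by linarith) ENNReal.ofReal_ne_top)
  refine ⟨C'.toReal + 1, by positivity, ?_⟩
  intro Ω _ S α Λ hΛ hL F hF z
  have hcF := cont_inv hF
  have hbF : ∀ x, ‖inv F x‖ ≤ ∫ ξ, ‖F ξ‖ := by
    intro x
    rw [inv_eq]
    refine (norm_integral_le_integral_norm _).trans (le_of_eq ?_)
    refine integral_congr_ae (Filter.Eventually.of_forall fun y => ?_)
    show ‖e ⟪x, y⟫ * F y‖ = ‖F y‖
    rw [norm_mul, norm_e, one_mul]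
  have hH : Integrable fun u => inv F u * wB B z u :=
    int_bdd (c := ∫ ξ, ‖F ξ‖) (wB_int hB z) hcF.aestronglyMeasurable hbF
  have hset : {x : E d | ∀ i, |x i - z i| ≤ 1} = cu 1 z := by
    ext x
    unfold cu
    simp
  rw [hset]
  have hN : ∀ ξ : E d, ∑ m ∈ S, ‖bw (fun u => inv F u * wB B z u) (ξ + pt m)‖ₑ ^ (2 : ℝ) ≤
      ENNReal.ofReal C * nrg M (inv F) z := by
    intro ξ
    refine le_trans (le_of_eq ?_) (hbw (inv F) hcF ⟨_, hbF⟩ z ξ S)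
    refine Finset.sum_congr rfl fun m _ => ?_
    congr 2
    unfold bw
    refine integral_congr_ae (Filter.Eventually.of_forall fun u => ?_)
    show inv F u * wB B z u * conj (e ⟪u, ξ + pt m⟫) = _
    rw [conj_e]
    unfold wB e
    rw [show 2 * Real.pi * -⟪u, ξ + pt m⟫ = -(2 * Real.pi * ⟪u, ξ + pt m⟫) by ring]
  obtain ⟨H, hHd⟩ : ∃ H : E d → ℂ, H = fun u => inv F u * wB B z u := ⟨_, rfl⟩
  rw [← hHd] at hH hN
  have h3 : ∀ ω, ∀ x ∈ cu 1 z, ‖inv (fun ξ => psia K S (α ω) ξ * F ξ) x‖ₑ ^ p ≤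
      (n : ℝ≥0∞) ^ (p - 1) * ∑ i : Fin n,
        ENNReal.ofReal (D i) ^ p * ‖op (k i) S (α ω) H x‖ₑ ^ p := by
    intro ω x hx
    have h4 := formP K hF x z S (α ω) P k hP (by rw [← hHd]; exact hH)
    rw [← hHd] at h4
    rw [h4]
    have hxz : x - z ∈ cu 1 (0 : E d) := by
      intro j
      have := hx j
      simpa using this
    calc ‖∑ i, P i (x - z) * op (k i) S (α ω) H x‖ₑ ^ p
        ≤ (∑ i, ENNReal.ofReal (D i) * ‖op (k i) S (α ω) H x‖ₑ) ^ p := by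
          refine ENNReal.rpow_le_rpow ?_ hp0.le
          refine (enorm_sum_le _ _).trans (Finset.sum_le_sum fun i _ => ?_)
          rw [enorm_mul]
          refine mul_le_mul' ?_ le_rfl
          rw [← ofReal_norm]
          exact ENNReal.ofReal_le_ofReal (hD i _ hxz)
      _ ≤ ((Finset.univ : Finset (Fin n)).card : ℝ≥0∞) ^ (p - 1) *
          ∑ i, (ENNReal.ofReal (D i) * ‖op (k i) S (α ω) H x‖ₑ) ^ p :=
          ENNReal.rpow_sum_le_const_mul_sum_rpow _ _ (by linarith)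
      _ = _ := by
          rw [Finset.card_univ, Fintype.card_fin]
          congr 1
          refine Finset.sum_congr rfl fun i _ => ?_
          rw [ENNReal.mul_rpow_of_nonneg _ _ hp0.le]
  have h5 : ∑ ω, ∫⁻ x in cu 1 z, ‖inv (fun ξ => psia K S (α ω) ξ * F ξ) x‖ₑ ^ p ≤
      (n : ℝ≥0∞) ^ (p - 1) * ∑ i : Fin n, ENNReal.ofReal (D i) ^ p *
        (κ i ^ (p - 1) * κ i * (3 ^ d * (ENNReal.ofReal (Λ ^ p) *
          (ENNReal.ofReal C * nrg M (inv F) z) ^ (p / 2)))) := by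
    have h50 : ∀ ω, ∫⁻ x in cu 1 z, ‖inv (fun ξ => psia K S (α ω) ξ * F ξ) x‖ₑ ^ p ≤
        (n : ℝ≥0∞) ^ (p - 1) * ∑ i : Fin n, ENNReal.ofReal (D i) ^ p *
          ∫⁻ x in cu 1 z, ‖op (k i) S (α ω) H x‖ₑ ^ p := by
      intro ω
      refine (setLIntegral_mono' (cu_meas 1 z) (h3 ω)).trans ?_
      rw [lintegral_const_mul' _ _ (ENNReal.rpow_ne_top_of_nonneg (by linarith) (by simp)),
        lintegral_finsetSum _ fun i _ => ((op_meas (k i) hH S (α ω)).enorm.pow_const p).const_mul _]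
      refine mul_le_mul' le_rfl (Finset.sum_le_sum fun i _ => ?_)
      rw [lintegral_const_mul' _ _
        (ENNReal.rpow_ne_top_of_nonneg (by linarith) ENNReal.ofReal_ne_top)]
    refine (Finset.sum_le_sum fun ω _ => h50 ω).trans ?_
    rw [← Finset.mul_sum, Finset.sum_comm]
    refine mul_le_mul' le_rfl (Finset.sum_le_sum fun i _ => ?_)
    rw [← Finset.mul_sum]
    refine mul_le_mul' le_rfl ?_
    rw [hκ]
    exact oneM (k i) hH z S α hp hL hN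
  refine h5.trans ?_
  have h6 : (n : ℝ≥0∞) ^ (p - 1) * ∑ i : Fin n, ENNReal.ofReal (D i) ^ p *
        (κ i ^ (p - 1) * κ i * (3 ^ d * (ENNReal.ofReal (Λ ^ p) *
          (ENNReal.ofReal C * nrg M (inv F) z) ^ (p / 2)))) =
      C' * ENNReal.ofReal (Λ ^ p) * nrg M (inv F) z ^ (p / 2) := by
    rw [hC', ENNReal.mul_rpow_of_nonneg _ _ (by linarith), mul_assoc, mul_assoc, Finset.sum_mul]
    congr 1
    refine Finset.sum_congr rfl fun i _ => ?_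
    ring
  rw [h6]
  have h7 : C' ≤ ENNReal.ofReal (C'.toReal + 1) := by
    calc C' = ENNReal.ofReal C'.toReal := (ENNReal.ofReal_toReal hC't).symm
      _ ≤ _ := ENNReal.ofReal_le_ofReal (by linarith)
  rw [ENNReal.ofReal_mul (by positivity)]
  gcongr

end Pool.Agent.T9h44.LS
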