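import Pool.Agent.T9h44.LS.M1
import Pool.Agent.N303.LS.Fin7

/-!
# The wave equation for families of multipliers: one shell (helper44), after helper303
-/

set_option autoImplicit false

namespace Pool.Agent.T9h44.LS

open MeasureTheory Pool.Agent.N303.LS
open scoped ENNReal FourierTransform RealInnerProductSpace SchwartzMap

/-- the wave equation for families of multipliers, given the local estimate -/
theorem fin4M (hEN : S_EN) (hYOU : S_YOU) (d : ℕ) (p : ℝ) (hp : 2 ≤ p)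
    (K : 𝓢(E d, ℂ)) (hloc : ∃ C : ℝ, 0 < C ∧ ∀ (Ω : Type) [Fintype Ω] (S : Finset (Fin d → ℤ))
      (a : Ω → (Fin d → ℤ) → ℂ) (Λ : ℝ), 0 ≤ Λ → LamM p Λ S a → ∀ F : E d → ℂ, Integrable F →
      ∀ z : E d,
      ∑ ω, ∫⁻ x in {x : E d | ∀ i, |x i - z i| ≤ 1}, ‖inv (fun ξ => psia K S (a ω) ξ * F ξ) x‖ₑ ^ p ≤
        ENNReal.ofReal (C * Λ ^ p) * nrg (d + 1) (inv F) z ^ (p / 2)) :
    ∃ C : ℝ, 0 < C ∧ ∀ (Ω : Type) [Fintype Ω] (S : Finset (Fin d → ℤ))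
      (a : Ω → (Fin d → ℤ) → ℂ) (Λ : ℝ), 0 ≤ Λ →
    LamM p Λ S a →
    ∀ (f₀ f₁ g₀ : 𝓢(E d, ℂ)) (g : Fin d → 𝓢(E d, ℂ)),
    (∀ x, f₁ x = g₀ x + ∑ j, lineDeriv ℝ (g j) x (EuclideanSpace.single j (1 : ℝ))) →
    ∀ t : ℝ, 0 ≤ t → t ≤ 2 →
      ∑ ω, ∫⁻ x : E d, ‖wave (fun ξ => psia K S (a ω) ξ * 𝓕 (f₀ : E d → ℂ) ξ)
        (fun ξ => psia K S (a ω) ξ * 𝓕 (f₁ : E d → ℂ) ξ) t x‖ₑ ^ p ≤
        ENNReal.ofReal (C * Λ ^ p) *
          ((∫⁻ x : E d, ‖f₀ x‖ₑ ^ p) + (∫⁻ x : E d, ‖g₀ x‖ₑ ^ p) +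
            ∑ j, ∫⁻ x : E d, ‖g j x‖ₑ ^ p) := by
  obtain ⟨C1, hC1, h1⟩ := hloc
  obtain ⟨C2, hC2, h2⟩ := hEN d (d + 1) (by omega)
  obtain ⟨C3, hC3, h3⟩ := hYOU d (d + 1) (by omega) p hp
  refine ⟨((d : ℝ) + 2) ^ (p - 1) * C1 * C2 ^ (p / 2) * C3, by positivity, ?_⟩
  intro Ω _ S a Λ hΛ hL f₀ f₁ g₀ g hf t h0 h2t
  have hp0 : 0 < p := by linarith
  have hw := fun ω => wave_eqa K S (a ω) f₀ f₁ g₀ g (fourier_gen f₁ g₀ g hf) t h0 h2t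
  set P : Ω → Fin d ⊕ Bool → E d → ℂ := fun ω k x =>
    inv (fun ξ => psia K S (a ω) ξ * (sym k t ξ * 𝓕 (gen f₀ g₀ g k : E d → ℂ) ξ)) x with hP
  have hPc : ∀ ω k, Continuous (P ω k) := fun ω k =>
    inv_cont _ (psia_int K S (a ω) _ (sym_int k t h0 h2t (gen f₀ g₀ g k)))
  have hw' : ∀ ω x, wave (fun ξ => psia K S (a ω) ξ * 𝓕 (f₀ : E d → ℂ) ξ)
        (fun ξ => psia K S (a ω) ξ * 𝓕 (f₁ : E d → ℂ) ξ) t x = ∑ k : Fin d ⊕ Bool, P ω k x :=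
    fun ω x => hw ω x
  simp only [hw']
  have hms : ∀ ω k, Measurable fun x => ‖P ω k x‖ₑ ^ p :=
    fun ω k => ((hPc ω k).measurable.enorm).pow_const p
  have hcard : (Finset.univ : Finset (Fin d ⊕ Bool)).card = d + 2 := by simp
  have s1 : ∀ ω, ∫⁻ x : E d, ‖∑ k : Fin d ⊕ Bool, P ω k x‖ₑ ^ p ≤
      ENNReal.ofReal (((d : ℝ) + 2) ^ (p - 1)) *
        ∑ k : Fin d ⊕ Bool, ∫⁻ x : E d, ‖P ω k x‖ₑ ^ p := by
    intro ω
    rw [← lintegral_finset_sum _ fun k _ => hms ω k, ← lintegral_const_mul']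
    · refine lintegral_mono fun x => ?_
      have h3 := pow_sum p (by linarith) (Finset.univ : Finset (Fin d ⊕ Bool)) (fun k => P ω k x)
      rw [hcard] at h3
      push_cast at h3
      exact h3
    · exact ENNReal.ofReal_ne_top
  have s2 : ∀ k, ∑ ω, ∫⁻ x : E d, ‖P ω k x‖ₑ ^ p ≤ ENNReal.ofReal (C1 * Λ ^ p) *
      (ENNReal.ofReal (C2 ^ (p / 2)) * (ENNReal.ofReal C3 *
        ∫⁻ x : E d, ‖gen f₀ g₀ g k x‖ₑ ^ p)) := by
    intro k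
    have a1 := fun ω => Pool.Agent.N492.LS.avg 1 (hms ω k)
    calc ∑ ω, ∫⁻ x : E d, ‖P ω k x‖ₑ ^ p ≤ ∑ ω, volume (Pool.Agent.N492.LS.cu 1 (0 : E d)) *
          ∫⁻ x : E d, ‖P ω k x‖ₑ ^ p :=
            Finset.sum_le_sum fun ω _ => le_mul_of_one_le_left (by positivity) (vol_cu d)
      _ = ∑ ω, ∫⁻ z : E d, ∫⁻ x in Pool.Agent.N492.LS.cu 1 z, ‖P ω k x‖ₑ ^ p :=
          Finset.sum_congr rfl fun ω _ => (a1 ω).symm
      _ ≤ ∫⁻ z : E d, ∑ ω, ∫⁻ x in Pool.Agent.N492.LS.cu 1 z, ‖P ω k x‖ₑ ^ p :=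
          sum_lint_le _ _ _
      _ ≤ ∫⁻ z : E d, ENNReal.ofReal (C1 * Λ ^ p) *
          (ENNReal.ofReal (C2 ^ (p / 2)) * nrg (d + 1) (gen f₀ g₀ g k) z ^ (p / 2)) := by
          refine lintegral_mono fun z => ?_
          have b1 := h1 Ω S a Λ hΛ hL _ (sym_int k t h0 h2t (gen f₀ g₀ g k)) z
          have b2 := h2 (gen f₀ g₀ g k) z t h0 h2t k
          have e0 : Pool.Agent.N492.LS.cu 1 z = {x : E d | ∀ i, |x i - z i| ≤ 1} := by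
            unfold Pool.Agent.N492.LS.cu
            norm_num
          rw [e0]
          refine b1.trans ?_
          gcongr
          refine (ENNReal.rpow_le_rpow b2 (by positivity)).trans (le_of_eq ?_)
          rw [ENNReal.mul_rpow_of_nonneg _ _ (by positivity),
            ENNReal.ofReal_rpow_of_nonneg hC2.le (by positivity)]
      _ = ENNReal.ofReal (C1 * Λ ^ p) * (ENNReal.ofReal (C2 ^ (p / 2)) *
          ∫⁻ z : E d, nrg (d + 1) (gen f₀ g₀ g k) z ^ (p / 2)) := by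
          rw [lintegral_const_mul' _ _ ENNReal.ofReal_ne_top,
            lintegral_const_mul' _ _ ENNReal.ofReal_ne_top]
      _ ≤ _ := by
          gcongr
          exact h3 _
  have s3 : ∑ k : Fin d ⊕ Bool, ∫⁻ x : E d, ‖(gen f₀ g₀ g k) x‖ₑ ^ p =
      (∫⁻ x : E d, ‖f₀ x‖ₑ ^ p) + (∫⁻ x : E d, ‖g₀ x‖ₑ ^ p) +
        ∑ j, ∫⁻ x : E d, ‖g j x‖ₑ ^ p := by
    rw [Fintype.sum_sum_type, Fintype.sum_bool, add_comm]
    rfl
  calc ∑ ω, ∫⁻ x : E d, ‖∑ k : Fin d ⊕ Bool, P ω k x‖ₑ ^ p ≤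
      ∑ ω, ENNReal.ofReal (((d : ℝ) + 2) ^ (p - 1)) *
        ∑ k : Fin d ⊕ Bool, ∫⁻ x : E d, ‖P ω k x‖ₑ ^ p := Finset.sum_le_sum fun ω _ => s1 ω
    _ = ENNReal.ofReal (((d : ℝ) + 2) ^ (p - 1)) *
        ∑ k : Fin d ⊕ Bool, ∑ ω, ∫⁻ x : E d, ‖P ω k x‖ₑ ^ p := by
        rw [← Finset.mul_sum, Finset.sum_comm]
    _ ≤ ENNReal.ofReal (((d : ℝ) + 2) ^ (p - 1)) * ∑ k : Fin d ⊕ Bool, ENNReal.ofReal (C1 * Λ ^ p) *
      (ENNReal.ofReal (C2 ^ (p / 2)) * (ENNReal.ofReal C3 *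
        ∫⁻ x : E d, ‖gen f₀ g₀ g k x‖ₑ ^ p)) := by
        gcongr with k _
        exact s2 k
    _ = _ := by
        rw [← Finset.mul_sum, ← Finset.mul_sum, ← Finset.mul_sum, s3]
        have e6 : ENNReal.ofReal (((d : ℝ) + 2) ^ (p - 1) * C1 * C2 ^ (p / 2) * C3 * Λ ^ p) =
            ENNReal.ofReal (((d : ℝ) + 2) ^ (p - 1)) * ENNReal.ofReal (C1 * Λ ^ p) *
              ENNReal.ofReal (C2 ^ (p / 2)) * ENNReal.ofReal C3 := by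
          rw [← ENNReal.ofReal_mul (by positivity), ← ENNReal.ofReal_mul (by positivity),
            ← ENNReal.ofReal_mul (by positivity)]
          congr 1
          ring
        rw [e6]
        ring

end Pool.Agent.T9h44.LS
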