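import Pool.Agent.T9h44.LS.M2

/-!
# Families of multipliers with growing constants: summation over the shells (helper44), after
helper303
-/

set_option autoImplicit false

namespace Pool.Agent.T9h44.LS

open MeasureTheory Pool.Agent.N303.LS
open scoped ENNReal FourierTransform RealInnerProductSpace SchwartzMap

/-- summation of the norms of the shells -/
lemma geoM {d : ℕ} {Ω : Type} [Fintype Ω] (p : ℝ) (hp : 1 ≤ p) (w : ℕ → Ω → E d → ℂ)
    (hw : ∀ c ω, Continuous (w c ω)) (Q q : ℝ)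
    (hQ : 0 ≤ Q) (hq0 : 0 < q) (hq1 : q < 1) (B : ℝ≥0∞)
    (h : ∀ c, ∑ ω, ∫⁻ x, ‖w c ω x‖ₑ ^ p ≤ ENNReal.ofReal (Q * (q ^ p) ^ c) * B) (N : ℕ) :
    ∑ ω, ∫⁻ x, ‖∑ c ∈ Finset.range N, w c ω x‖ₑ ^ p ≤
      ENNReal.ofReal (Q / (1 - q) ^ p) * B := by
  have hp0 : 0 < p := by linarith
  have h1q : 0 < 1 - q := by linarith
  set z : ℝ := (1 - q)⁻¹ with hz
  have hz0 : 0 < z := by positivity
  have hsum : ∑ c ∈ Finset.range N, ENNReal.ofReal (q ^ c) ≤ ENNReal.ofReal z := by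
    rw [← ENNReal.ofReal_sum_of_nonneg fun c _ => by positivity]
    refine ENNReal.ofReal_le_ofReal ?_
    calc ∑ c ∈ Finset.range N, q ^ c ≤ ∑' c, q ^ c :=
          (summable_geometric_of_lt_one hq0.le hq1).sum_le_tsum _ fun c _ => by positivity
      _ = (1 - q)⁻¹ := tsum_geometric_of_lt_one hq0.le hq1
  have hpt : ∀ ω x, ‖∑ c ∈ Finset.range N, w c ω x‖ₑ ^ p ≤ ENNReal.ofReal (z ^ (p - 1)) *
      ∑ c ∈ Finset.range N, ENNReal.ofReal (q ^ c * (q ^ p)⁻¹ ^ c) * ‖w c ω x‖ₑ ^ p := by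
    intro ω x
    have e1 : ‖∑ c ∈ Finset.range N, w c ω x‖ₑ ≤ ∑ c ∈ Finset.range N,
        ENNReal.ofReal (q ^ c) * (ENNReal.ofReal (q⁻¹ ^ c) * ‖w c ω x‖ₑ) := by
      refine (enorm_sum_le _ _).trans (le_of_eq ?_)
      refine Finset.sum_congr rfl fun c _ => ?_
      rw [← mul_assoc, ← ENNReal.ofReal_mul (by positivity), ← mul_pow,
        mul_inv_cancel₀ hq0.ne', one_pow, ENNReal.ofReal_one, one_mul]
    have e2 := ENNReal.inner_le_weight_mul_Lp_of_nonneg (Finset.range N) hp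
      (fun c => ENNReal.ofReal (q ^ c)) (fun c => ENNReal.ofReal (q⁻¹ ^ c) * ‖w c ω x‖ₑ)
    have e3 := ENNReal.rpow_le_rpow (e1.trans e2) hp0.le
    rw [ENNReal.mul_rpow_of_nonneg _ _ hp0.le, ← ENNReal.rpow_mul, ← ENNReal.rpow_mul,
      inv_mul_cancel₀ hp0.ne', ENNReal.rpow_one] at e3
    refine e3.trans ?_
    have e4 : (1 - p⁻¹) * p = p - 1 := by
      field_simp
    rw [e4]
    refine mul_le_mul' ?_ ?_
    · refine (ENNReal.rpow_le_rpow hsum (by linarith)).trans (le_of_eq ?_)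
      rw [ENNReal.ofReal_rpow_of_nonneg hz0.le (by linarith)]
    · refine Finset.sum_le_sum fun c _ => le_of_eq ?_
      rw [ENNReal.mul_rpow_of_nonneg _ _ hp0.le, ← mul_assoc,
        ENNReal.ofReal_rpow_of_nonneg (by positivity) hp0.le, ← ENNReal.ofReal_mul (by positivity)]
      congr 3
      rw [← Real.rpow_natCast q⁻¹ c, ← Real.rpow_mul (by positivity),
        ← Real.rpow_natCast (q ^ p)⁻¹ c, ← Real.inv_rpow hq0.le, ← Real.rpow_mul (by positivity)]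
      congr 1
      ring
  have hm : ∀ c ω, Measurable fun x => ‖w c ω x‖ₑ ^ p := fun c ω =>
    ((hw c ω).measurable.enorm).pow_const p
  calc ∑ ω, ∫⁻ x, ‖∑ c ∈ Finset.range N, w c ω x‖ₑ ^ p
      ≤ ∑ ω, ∫⁻ x, ENNReal.ofReal (z ^ (p - 1)) *
        ∑ c ∈ Finset.range N, ENNReal.ofReal (q ^ c * (q ^ p)⁻¹ ^ c) * ‖w c ω x‖ₑ ^ p :=
        Finset.sum_le_sum fun ω _ => lintegral_mono fun x => hpt ω x
    _ = ∑ ω, ENNReal.ofReal (z ^ (p - 1)) * ∑ c ∈ Finset.range N,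
          ENNReal.ofReal (q ^ c * (q ^ p)⁻¹ ^ c) * ∫⁻ x, ‖w c ω x‖ₑ ^ p := by
        refine Finset.sum_congr rfl fun ω _ => ?_
        rw [lintegral_const_mul' _ _ ENNReal.ofReal_ne_top,
          lintegral_finsetSum _ fun c _ => (hm c ω).const_mul _]
        congr 1
        refine Finset.sum_congr rfl fun c _ => ?_
        rw [lintegral_const_mul' _ _ ENNReal.ofReal_ne_top]
    _ = ENNReal.ofReal (z ^ (p - 1)) * ∑ c ∈ Finset.range N,
          ENNReal.ofReal (q ^ c * (q ^ p)⁻¹ ^ c) * ∑ ω, ∫⁻ x, ‖w c ω x‖ₑ ^ p := by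
        rw [← Finset.mul_sum, Finset.sum_comm]
        simp only [← Finset.mul_sum]
    _ ≤ ENNReal.ofReal (z ^ (p - 1)) * ∑ c ∈ Finset.range N,
          ENNReal.ofReal (q ^ c * (q ^ p)⁻¹ ^ c) * (ENNReal.ofReal (Q * (q ^ p) ^ c) * B) := by
        gcongr with c _
        exact h c
    _ = ENNReal.ofReal (z ^ (p - 1)) * ((∑ c ∈ Finset.range N, ENNReal.ofReal (q ^ c)) *
          (ENNReal.ofReal Q * B)) := by
        rw [Finset.sum_mul]
        congr 1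
        refine Finset.sum_congr rfl fun c _ => ?_
        have e5 : q ^ c * (q ^ p)⁻¹ ^ c * (Q * (q ^ p) ^ c) = q ^ c * Q := by
          have : (q ^ p)⁻¹ ^ c * (q ^ p) ^ c = 1 := by
            rw [← mul_pow, inv_mul_cancel₀ (by positivity), one_pow]
          linear_combination q ^ c * Q * this
        rw [← mul_assoc, ← ENNReal.ofReal_mul (by positivity), e5,
          ENNReal.ofReal_mul (by positivity), mul_assoc]
    _ ≤ ENNReal.ofReal (z ^ (p - 1)) * (ENNReal.ofReal z * (ENNReal.ofReal Q * B)) := by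
        gcongr
    _ = _ := by
        rw [← mul_assoc, ← mul_assoc, ← ENNReal.ofReal_mul (by positivity),
          ← ENNReal.ofReal_mul (by positivity)]
        congr 2
        have e6 : z ^ (p - 1) * z = z ^ p := by
          rw [← Real.rpow_add_one hz0.ne']
          congr 1
          ring
        rw [e6, hz, Real.inv_rpow h1q.le]
        ring

/-- the points of `T` in a dyadic shell -/
def shl {d : ℕ} (T : Finset (Fin d → ℤ)) (c : ℕ) : Finset (Fin d → ℤ) :=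
  T.filter fun m => Nat.size (nm m) = c

/-- the cut-offs -/
noncomputable def cutL {d : ℕ} (χ : ℕ → E d → ℂ) (c0 c : ℕ) : E d → ℂ :=
  if c ≤ c0 then fun _ => 1 else χ (c - 1)

lemma shellL {d : ℕ} (L c0 : ℕ) (hc : 4 * L ≤ 2 ^ c0) (m : Fin d → ℤ) (k : ℕ) (hk : c0 ≤ k)
    (h : Nat.size (nm m) = k + 1) (ξ : E d) (hξ : ∀ i, |ξ i - m i| ≤ L) :
    (∃ i, (2 : ℝ) ^ k * (3 / 4) ≤ |ξ i|) ∧ ∀ i, |ξ i| ≤ (2 : ℝ) ^ k * (9 / 4) := by
  have hL : 4 * (L : ℝ) ≤ 2 ^ k := by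
    have h1 : 4 * L ≤ 2 ^ k := hc.trans (Nat.pow_le_pow_right (by norm_num) hk)
    exact_mod_cast h1
  constructor
  · have h1 : 2 ^ k ≤ nm m := Nat.lt_size.1 (by omega)
    obtain ⟨i, hi⟩ : ∃ i, 2 ^ k ≤ (m i).natAbs := by
      by_contra hcon
      push Not at hcon
      have h2 : nm m < 2 ^ k := by
        unfold nm
        rw [Finset.sup_lt_iff (by positivity)]
        exact fun i _ => hcon i
      omega
    refine ⟨i, ?_⟩
    have h3 : (2 : ℝ) ^ k ≤ |(m i : ℝ)| := by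
      have : ((2 ^ k : ℕ) : ℤ) ≤ |m i| := by
        rw [Int.abs_eq_natAbs]
        exact_mod_cast hi
      exact_mod_cast this
    have h4 := hξ i
    have h5 : |(m i : ℝ)| ≤ |ξ i| + |ξ i - m i| := by
      have : (m i : ℝ) = ξ i - (ξ i - m i) := by ring
      calc |(m i : ℝ)| = |ξ i - (ξ i - m i)| := by rw [← this]
        _ ≤ _ := abs_sub _ _
    nlinarith
  · intro i
    have h1 := abs_lt_of_size m (k + 1) h i
    have h2 : |(m i : ℝ)| < 2 ^ (k + 1) := by exact_mod_cast h1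
    have h4 := hξ i
    have h5 : |ξ i| ≤ |(m i : ℝ)| + |ξ i - m i| := by
      have : ξ i = (m i : ℝ) + (ξ i - m i) := by ring
      calc |ξ i| = |(m i : ℝ) + (ξ i - m i)| := by rw [← this]
        _ ≤ _ := abs_add_le _ _
    rw [pow_succ] at h2
    nlinarith

lemma cutL_mul {d : ℕ} (χ : ℕ → E d → ℂ)
    (χ1 : ∀ (k : ℕ) (ξ : E d), (∃ i, (2 : ℝ) ^ k * (3 / 4) ≤ |ξ i|) →
      (∀ i, |ξ i| ≤ (2 : ℝ) ^ k * (9 / 4)) → χ k ξ = 1) (K : 𝓢(E d, ℂ)) (L c0 : ℕ)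
    (hc : 4 * L ≤ 2 ^ c0)
    (h0 : ∀ ξ : E d, (∃ i, (L : ℝ) < |ξ i|) → 𝓕 (K : E d → ℂ) ξ = 0)
    (T : Finset (Fin d → ℤ)) (a : (Fin d → ℤ) → ℂ) (c : ℕ) (ξ : E d) (v : ℂ) :
    psia K (shl T c) a ξ * (cutL χ c0 c ξ * v) = psia K (shl T c) a ξ * v := by
  unfold cutL
  split_ifs with hcc
  · rw [one_mul]
  · obtain ⟨k, rfl⟩ : ∃ k, c = k + 1 := ⟨c - 1, by omega⟩
    rw [Nat.add_sub_cancel]
    by_cases hx : (∃ i, (2 : ℝ) ^ k * (3 / 4) ≤ |ξ i|) ∧ ∀ i, |ξ i| ≤ (2 : ℝ) ^ k * (9 / 4)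
    · rw [χ1 k ξ hx.1 hx.2, one_mul]
    · have hz : psia K (shl T (k + 1)) a ξ = 0 := by
        unfold psia
        refine Finset.sum_eq_zero fun m hm => ?_
        unfold shl at hm
        rw [Finset.mem_filter] at hm
        have h1 : ∃ i, (L : ℝ) < |(ξ - pt m) i| := by
          by_contra hcon
          push Not at hcon
          exact hx (shellL L c0 hc m k (by omega) hm.2 ξ fun i => by simpa [pt] using hcon i)
        rw [h0 _ h1, mul_zero]
      rw [hz, zero_mul, zero_mul]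

lemma psia_shl {d : ℕ} (K : 𝓢(E d, ℂ)) (T : Finset (Fin d → ℤ)) (a : (Fin d → ℤ) → ℂ) (N : ℕ)
    (hN : ∀ m ∈ T, Nat.size (nm m) < N) (ξ : E d) :
    ∑ c ∈ Finset.range N, psia K (shl T c) a ξ = psia K T a ξ := by
  unfold psia shl
  exact Finset.sum_fiberwise_of_maps_to (fun m hm => Finset.mem_range.2 (hN m hm)) _

lemma LamM_sub {d : ℕ} {Ω : Type} [Fintype Ω] {p Λ : ℝ} {S S' : Finset (Fin d → ℤ)}
    {a : Ω → (Fin d → ℤ) → ℂ} (h : LamM p Λ S a) (hS : S' ⊆ S) : LamM p Λ S' a := by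
  classical
  intro c
  have h1 := h fun m => if m ∈ S' then c m else 0
  have e1 : ∀ (ω : Ω) (x : E d), ∑ m ∈ S, a ω m * (if m ∈ S' then c m else 0) *
      Complex.exp (((2 * Real.pi * ⟪x, pt m⟫ : ℝ) : ℂ) * Complex.I) =
      ∑ m ∈ S', a ω m * c m *
      Complex.exp (((2 * Real.pi * ⟪x, pt m⟫ : ℝ) : ℂ) * Complex.I) := by
    intro ω x
    rw [← Finset.sum_subset hS]
    · refine Finset.sum_congr rfl fun m hm => ?_
      rw [if_pos hm]
    · intro m _ hm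
      rw [if_neg hm]
      ring
  have e2 : ∑ m ∈ S, ‖(if m ∈ S' then c m else 0)‖ₑ ^ (2 : ℝ) = ∑ m ∈ S', ‖c m‖ₑ ^ (2 : ℝ) := by
    rw [← Finset.sum_subset hS]
    · refine Finset.sum_congr rfl fun m hm => ?_
      rw [if_pos hm]
    · intro m _ hm
      rw [if_neg hm]
      simp
  simp only [e1] at h1
  rw [e2] at h1
  exact h1

theorem fin6M (hPD : S_PD) (hBW : S_BW) (hEN : S_EN) (hYOU : S_YOU) (hLPK : S_LPK) (hBP : S_BP)
    (d : ℕ) (p θ s : ℝ) (hp : 2 ≤ p) (hθ : 0 ≤ θ) (hθ2 : θ < 2) (hs : θ < s) (K : 𝓢(E d, ℂ))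
    (L : ℕ) (k0 : ∀ ξ : E d, (∃ i, (L : ℝ) < |ξ i|) → 𝓕 (K : E d → ℂ) ξ = 0) :
    ∃ C : ℝ, 0 < C ∧ ∀ (Ω : Type) [Fintype Ω] (T : Finset (Fin d → ℤ)) (a : Ω → (Fin d → ℤ) → ℂ)
    (A : ℝ), 0 ≤ A →
    (∀ R : ℕ, 1 ≤ R → LamM p (A * (R : ℝ) ^ θ) (T.filter fun m => ∀ i, |m i| < R) a) →
    ∀ (u₀ u₁ : 𝓢(E d, ℂ)), ∀ t : ℝ, 0 ≤ t → t ≤ 2 →
      ∑ ω, ∫⁻ x : E d, ‖wave (fun ξ => psia K T (a ω) ξ * 𝓕 (u₀ : E d → ℂ) ξ)
        (fun ξ => psia K T (a ω) ξ * 𝓕 (u₁ : E d → ℂ) ξ) t x‖ₑ ^ p ≤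
        ENNReal.ofReal (C * A ^ p) *
          ((∫⁻ x : E d, ‖inv (fun ξ => bes s ξ * 𝓕 (u₀ : E d → ℂ) ξ) x‖ₑ ^ p) +
            ∫⁻ x : E d, ‖inv (fun ξ => bes (s - 1) ξ * 𝓕 (u₁ : E d → ℂ) ξ) x‖ₑ ^ p) := by
  obtain ⟨C4, hC4, h4⟩ := fin4M hEN hYOU d p hp K (t_llgM hPD hBW d (d + 1) p hp K)
  obtain ⟨χ, χtg, χ1, hχ⟩ := hLPK d
  have hp0 : 0 < p := by linarith
  obtain ⟨c0, hc0⟩ : ∃ c0 : ℕ, 4 * L ≤ 2 ^ c0 := ⟨4 * L, (Nat.lt_two_pow_self).le⟩
  set s' : ℝ := (θ + min s 2) / 2 with hs'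
  have hm1 : min s 2 ≤ s := min_le_left _ _
  have hm2 : min s 2 ≤ 2 := min_le_right _ _
  have hm3 : θ < min s 2 := lt_min hs hθ2
  have a1 : θ < s' := by rw [hs']; linarith
  have a2 : s' < s := by rw [hs']; linarith
  have a3 : s' < 2 := by rw [hs']; linarith
  have a4 : 0 < s' := by linarith
  obtain ⟨C5, hC5, h5⟩ := hχ s' p a4 a3 (by linarith)
  obtain ⟨B0, hB0, b0⟩ := (hBP d (s - s') p (by linarith)).1 (by linarith)
  obtain ⟨B1, hB1, b1⟩ := (hBP d (1 + (s - s')) p (by linarith)).1 (by linarith)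
  choose B2 hB2 b2 using (hBP d (1 + (s - s')) p (by linarith)).2 (by linarith)
  obtain ⟨B3, hB3, b3⟩ := (hBP d s' p (by linarith)).1 a4
  set D : ℝ := B0 + B1 + ∑ j, B2 j with hD
  have hsum : 0 ≤ ∑ j, B2 j := Finset.sum_nonneg fun j _ => (hB2 j).le
  have hDpos : 0 < D := by positivity
  set r : ℝ := (2 : ℝ) ^ (-s' * p) with hr
  have hr0 : 0 < r := by positivity
  have hr1 : r ≤ 1 := Real.rpow_le_one_of_one_le_of_nonpos (by norm_num) (by nlinarith)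
  set C7 : ℝ := B3 * (r ^ c0)⁻¹ + C5 * r⁻¹ with hC7
  have hC70 : 0 < C7 := by positivity
  set q : ℝ := (2 : ℝ) ^ (θ - s') with hq
  have hq0 : 0 < q := by positivity
  have hq1 : q < 1 := Real.rpow_lt_one_of_one_lt_of_neg (by norm_num) (by linarith)
  set G0 : ℝ := C4 * ((d : ℝ) + 2) * C7 * D with hG0
  have hG00 : 0 < G0 := by positivity
  have h1q : 0 < 1 - q := by linarith
  refine ⟨G0 / (1 - q) ^ p, by positivity, ?_⟩
  intro Ω _ T a A hA hS u₀ u₁ t ht0 ht2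
  obtain ⟨F₀, F₁, hh, hF0x, hF1x, hh0, hh1, hhj, e0, e1⟩ := data s s' u₀ u₁
  set X := ∫⁻ x : E d, ‖F₀ x‖ₑ ^ p with hX
  set Z := ∫⁻ x : E d, ‖F₁ x‖ₑ ^ p with hZ
  -- the norms of the generators
  have hhb : ∀ k, ∫⁻ x : E d, ‖hh k x‖ₑ ^ p ≤ ENNReal.ofReal D * (X + Z) := by
    intro k
    have hB2le : ∀ j, B2 j ≤ ∑ j, B2 j := fun j =>
      Finset.single_le_sum (f := B2) (fun i _ => (hB2 i).le) (Finset.mem_univ j)
    match k with
    | Sum.inr true =>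
      simp only [hh0]
      refine (b0 F₀).trans ?_
      gcongr
      · rw [hD]; linarith
      · exact le_self_add
    | Sum.inr false =>
      simp only [hh1]
      refine (b1 F₁).trans ?_
      gcongr
      · rw [hD]; linarith
      · exact le_add_self
    | Sum.inl j =>
      simp only [hhj]
      refine (b2 j (-F₁)).trans ?_
      have e : ∫⁻ x : E d, ‖(-F₁ : 𝓢(E d, ℂ)) x‖ₑ ^ p = Z := by
        rw [hZ]
        refine lintegral_congr fun x => ?_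
        rw [neg_apply, enorm_neg]
      rw [e]
      gcongr
      · rw [hD]; linarith [hB2le j]
      · exact le_add_self
  -- the localised generators
  have hpg : ∀ c : ℕ, ∃ pg : Fin d ⊕ Bool → 𝓢(E d, ℂ),
      (∀ k ξ, 𝓕 (pg k : E d → ℂ) ξ = cutL χ c0 c ξ * (bes (-s') ξ * 𝓕 (hh k : E d → ℂ) ξ)) ∧
      ∀ k, ∫⁻ x : E d, ‖pg k x‖ₑ ^ p ≤ ENNReal.ofReal (C7 * r ^ c) *
        ∫⁻ x : E d, ‖hh k x‖ₑ ^ p := by
    intro c
    by_cases hcc : c ≤ c0
    · choose pg p1 p2 using fun k => mult (bes (-s')) (bes_tg _) (hh k)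
      refine ⟨pg, fun k ξ => ?_, fun k => ?_⟩
      · rw [p1]
        simp [cutL, hcc]
      · simp only [p2]
        refine (b3 (hh k)).trans ?_
        gcongr
        rw [hC7]
        have h1 : r ^ c0 ≤ r ^ c := pow_le_pow_of_le_one hr0.le hr1 hcc
        have h2 : B3 ≤ B3 * (r ^ c0)⁻¹ * r ^ c := by
          have h3 : 1 ≤ (r ^ c0)⁻¹ * r ^ c := by
            rw [inv_mul_eq_div, le_div_iff₀ (by positivity), one_mul]
            exact h1
          nlinarith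
        have h3 : 0 ≤ C5 * r⁻¹ * r ^ c := by positivity
        linarith
    · obtain ⟨k', rfl⟩ : ∃ k, c = k + 1 := ⟨c - 1, by omega⟩
      choose pg p1 p2 using fun k => mult (fun ξ => χ k' ξ * bes (-s') ξ)
        ((χtg k').mul (bes_tg _)) (hh k)
      refine ⟨pg, fun k ξ => ?_, fun k => ?_⟩
      · rw [p1]
        simp only [cutL, if_neg hcc, Nat.add_sub_cancel]
        ring
      · refine (h5 k' (hh k) (pg k) fun ξ => by rw [p1]; ring).trans ?_
        refine mul_le_mul_left (ENNReal.ofReal_le_ofReal ?_) _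
        rw [hC7, pow_succ]
        have e : (B3 * (r ^ c0)⁻¹ + C5 * r⁻¹) * (r ^ k' * r) =
            B3 * (r ^ c0)⁻¹ * (r ^ k' * r) + C5 * r ^ k' := by
          field_simp
        rw [e]
        have : 0 ≤ B3 * (r ^ c0)⁻¹ * (r ^ k' * r) := by positivity
        linarith
  choose pg pg1 pg2 using hpg
  -- the shells
  set w : ℕ → Ω → E d → ℂ := fun c ω x => wave
    (fun ξ => psia K (shl T c) (a ω) ξ * 𝓕 (u₀ : E d → ℂ) ξ)
    (fun ξ => psia K (shl T c) (a ω) ξ * 𝓕 (u₁ : E d → ℂ) ξ) t x with hw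
  have hwi : ∀ c ω, Integrable fun ξ =>
      cs t ξ * (psia K (shl T c) (a ω) ξ * 𝓕 (u₀ : E d → ℂ) ξ) +
      sn t ξ * (psia K (shl T c) (a ω) ξ * 𝓕 (u₁ : E d → ℂ) ξ) := fun c ω =>
    wint t ht0 ht2 _ _ (psia_int K _ _ _ (four_int u₀)) (psia_int K _ _ _ (four_int u₁))
  have hwc : ∀ c ω, Continuous (w c ω) := fun c ω => inv_cont _ (hwi c ω)
  have hwb : ∀ c, ∑ ω, ∫⁻ x, ‖w c ω x‖ₑ ^ p ≤
      ENNReal.ofReal (G0 * A ^ p * (q ^ p) ^ c) * (X + Z) := by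
    intro c
    set f₁ : 𝓢(E d, ℂ) := pg c (Sum.inr false) + ∑ j, LineDeriv.lineDerivOp
      (EuclideanSpace.single j (1 : ℝ)) (pg c (Sum.inl j)) with hf₁
    have hsl := sum_line (pg c (Sum.inr false)) (fun j => pg c (Sum.inl j))
    have hLam : LamM p (A * (((2 ^ c : ℕ) : ℝ)) ^ θ) (shl T c) a := by
      refine LamM_sub (hS (2 ^ c) Nat.one_le_two_pow) ?_
      intro m hm
      unfold shl at hm
      rw [Finset.mem_filter] at hm ⊢
      refine ⟨hm.1, fun i => ?_⟩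
      have := abs_lt_of_size m c hm.2 i
      push_cast
      exact this
    have hb := h4 Ω (shl T c) a _ (by positivity) hLam (pg c (Sum.inr true)) f₁
      (pg c (Sum.inr false)) (fun j => pg c (Sum.inl j)) hsl t ht0 ht2
    have ef0 : ∀ ω, (fun ξ => psia K (shl T c) (a ω) ξ *
        𝓕 (pg c (Sum.inr true) : E d → ℂ) ξ) =
        fun ξ => psia K (shl T c) (a ω) ξ * 𝓕 (u₀ : E d → ℂ) ξ := by
      intro ω
      funext ξ
      rw [pg1, ← e0]
      exact cutL_mul χ χ1 K L c0 hc0 k0 T (a ω) c ξ _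
    have ef1 : ∀ ω, (fun ξ => psia K (shl T c) (a ω) ξ * 𝓕 (f₁ : E d → ℂ) ξ) =
        fun ξ => psia K (shl T c) (a ω) ξ * 𝓕 (u₁ : E d → ℂ) ξ := by
      intro ω
      funext ξ
      have e2 : 𝓕 (f₁ : E d → ℂ) ξ = cutL χ c0 c ξ * 𝓕 (u₁ : E d → ℂ) ξ := by
        rw [fourier_gen f₁ (pg c (Sum.inr false)) (fun j => pg c (Sum.inl j)) hsl ξ]
        simp only [pg1]
        rw [e1 ξ, mul_add, Finset.mul_sum]
        congr 1
        refine Finset.sum_congr rfl fun j _ => ?_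
        ring
      rw [e2]
      exact cutL_mul χ χ1 K L c0 hc0 k0 T (a ω) c ξ _
    simp only [ef0, ef1] at hb
    refine hb.trans ?_
    have hone : ∀ k, ∫⁻ x : E d, ‖pg c k x‖ₑ ^ p ≤ ENNReal.ofReal (C7 * r ^ c * D) * (X + Z) := by
      intro k
      refine (pg2 c k).trans ?_
      calc ENNReal.ofReal (C7 * r ^ c) * ∫⁻ x : E d, ‖hh k x‖ₑ ^ p ≤
          ENNReal.ofReal (C7 * r ^ c) * (ENNReal.ofReal D * (X + Z)) := by
            gcongr
            exact hhb k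
        _ = _ := by
          rw [← mul_assoc, ← ENNReal.ofReal_mul (by positivity)]
    calc ENNReal.ofReal (C4 * (A * (((2 ^ c : ℕ) : ℝ)) ^ θ) ^ p) *
          ((∫⁻ x : E d, ‖pg c (Sum.inr true) x‖ₑ ^ p) + (∫⁻ x : E d, ‖pg c (Sum.inr false) x‖ₑ ^ p) +
            ∑ j, ∫⁻ x : E d, ‖pg c (Sum.inl j) x‖ₑ ^ p) ≤
        ENNReal.ofReal (C4 * (A * (((2 ^ c : ℕ) : ℝ)) ^ θ) ^ p) *
          (ENNReal.ofReal (C7 * r ^ c * D) * (X + Z) + ENNReal.ofReal (C7 * r ^ c * D) * (X + Z) +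
            ∑ _j : Fin d, ENNReal.ofReal (C7 * r ^ c * D) * (X + Z)) := by
          gcongr
          · exact hone _
          · exact hone _
          · exact hone _
      _ = ENNReal.ofReal (C4 * (A * (((2 ^ c : ℕ) : ℝ)) ^ θ) ^ p) *
          (ENNReal.ofReal ((d : ℝ) + 2) * (ENNReal.ofReal (C7 * r ^ c * D) * (X + Z))) := by
          congr 1
          rw [Finset.sum_const, Finset.card_univ, Fintype.card_fin, nsmul_eq_mul,
            ENNReal.ofReal_add (by positivity) (by norm_num), ENNReal.ofReal_natCast,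
            ENNReal.ofReal_ofNat]
          ring
      _ = _ := by
          rw [← mul_assoc, ← mul_assoc, ← ENNReal.ofReal_mul (by positivity),
            ← ENNReal.ofReal_mul (by positivity)]
          congr 2
          have z1 : (A * (((2 ^ c : ℕ) : ℝ)) ^ θ) ^ p = A ^ p * ((2 : ℝ) ^ (θ * p)) ^ c := by
            rw [Real.mul_rpow hA (by positivity)]
            congr 1
            push_cast
            rw [← Real.rpow_natCast 2 c, ← Real.rpow_mul (by norm_num),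
              ← Real.rpow_mul (by norm_num), ← Real.rpow_natCast ((2 : ℝ) ^ (θ * p)) c,
              ← Real.rpow_mul (by norm_num)]
            congr 1
            ring
          have z3 : (q ^ p) ^ c = ((2 : ℝ) ^ (θ * p)) ^ c * r ^ c := by
            rw [← mul_pow]
            congr 1
            rw [hq, hr, ← Real.rpow_mul (by norm_num), ← Real.rpow_add (by norm_num)]
            congr 1
            ring
          rw [z1, z3, hG0]
          ring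
  obtain ⟨N, hN⟩ : ∃ N : ℕ, ∀ m ∈ T, Nat.size (nm m) < N := by
    refine ⟨(T.sup fun m => Nat.size (nm m)) + 1, fun m hm => ?_⟩
    exact Nat.lt_succ_of_le (Finset.le_sup (f := fun m => Nat.size (nm m)) hm)
  have hfin := geoM p (by linarith) w hwc (G0 * A ^ p) q (by positivity) hq0 hq1 (X + Z) hwb N
  have hPs : ∀ ω x, ∑ c ∈ Finset.range N, w c ω x =
      wave (fun ξ => psia K T (a ω) ξ * 𝓕 (u₀ : E d → ℂ) ξ)
        (fun ξ => psia K T (a ω) ξ * 𝓕 (u₁ : E d → ℂ) ξ) t x := by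
    intro ω x
    have e : (fun ξ => cs t ξ * (psia K T (a ω) ξ * 𝓕 (u₀ : E d → ℂ) ξ) +
        sn t ξ * (psia K T (a ω) ξ * 𝓕 (u₁ : E d → ℂ) ξ)) = fun ξ => ∑ c ∈ Finset.range N,
        (cs t ξ * (psia K (shl T c) (a ω) ξ * 𝓕 (u₀ : E d → ℂ) ξ) +
      sn t ξ * (psia K (shl T c) (a ω) ξ * 𝓕 (u₁ : E d → ℂ) ξ)) := by
      funext ξ
      rw [← psia_shl K T (a ω) N hN ξ, Finset.sum_add_distrib, ← Finset.mul_sum, ← Finset.mul_sum,
        ← Finset.sum_mul, ← Finset.sum_mul]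
    unfold wave
    rw [e, inv_sum _ _ fun c _ => hwi c ω]
    rfl
  simp only [hPs] at hfin
  simp only [← hF0x, ← hF1x]
  refine hfin.trans (le_of_eq ?_)
  congr 2
  ring

end Pool.Agent.T9h44.LS
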