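import Pool.Agent.T9h44.LS.M3
import Pool.Agent.H47R2.EA.KHIN

/-!
# Khintchine's inequality for complex coefficients and real exponents (helper44)
-/

set_option autoImplicit false

namespace Pool.Agent.T9h44.LS

open MeasureTheory Pool.Agent.N303.LS
open scoped ENNReal

lemma khi_even (k : ℕ) (hk : 1 ≤ k) (ι : Type) [Fintype ι] [DecidableEq ι] (a : ι → ℂ) :
    ∑ ε : ι → Bool, ‖∑ i, (if ε i then a i else - a i)‖ ^ (2 * k) ≤
      2 * (12 * (k : ℝ)) ^ k * 2 ^ Fintype.card ι * (∑ i, ‖a i‖ ^ 2) ^ k := by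
  have hc : (0 : ℝ) < 2 ^ Fintype.card ι := by positivity
  have hre := Pool.H47EA.t_KHIN ι (fun i => (a i).re) k hk
  have him := Pool.H47EA.t_KHIN ι (fun i => (a i).im) k hk
  rw [div_le_iff₀ hc] at hre him
  have hQ0 : 0 ≤ ∑ i, ‖a i‖ ^ 2 := Finset.sum_nonneg fun _ _ => by positivity
  have n1 : ∀ z : ℂ, ‖z‖ ^ 2 = z.re ^ 2 + z.im ^ 2 := fun z => by
    rw [← Complex.normSq_eq_norm_sq, Complex.normSq_apply]
    ring
  have q1 : (∑ i, (a i).re ^ 2) ^ k ≤ (∑ i, ‖a i‖ ^ 2) ^ k := by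
    refine pow_le_pow_left₀ (Finset.sum_nonneg fun _ _ => sq_nonneg _)
      (Finset.sum_le_sum fun i _ => ?_) k
    rw [n1]
    nlinarith [sq_nonneg (a i).im]
  have q2 : (∑ i, (a i).im ^ 2) ^ k ≤ (∑ i, ‖a i‖ ^ 2) ^ k := by
    refine pow_le_pow_left₀ (Finset.sum_nonneg fun _ _ => sq_nonneg _)
      (Finset.sum_le_sum fun i _ => ?_) k
    rw [n1]
    nlinarith [sq_nonneg (a i).re]
  have hs : ∀ ε : ι → Bool, ‖∑ i, (if ε i then a i else - a i)‖ ^ (2 * k) ≤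
      2 ^ k * ((∑ i, (a i).re * Pool.H47EA.sg (ε i)) ^ (2 * k) +
        (∑ i, (a i).im * Pool.H47EA.sg (ε i)) ^ (2 * k)) := by
    intro ε
    have er : (∑ i, (if ε i then a i else - a i)).re = ∑ i, (a i).re * Pool.H47EA.sg (ε i) := by
      rw [Complex.re_sum]
      refine Finset.sum_congr rfl fun i _ => ?_
      unfold Pool.H47EA.sg
      split_ifs <;> simp
    have ei : (∑ i, (if ε i then a i else - a i)).im = ∑ i, (a i).im * Pool.H47EA.sg (ε i) := by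
      rw [Complex.im_sum]
      refine Finset.sum_congr rfl fun i _ => ?_
      unfold Pool.H47EA.sg
      split_ifs <;> simp
    rw [pow_mul, n1, er, ei, pow_mul, pow_mul]
    set x := (∑ i, (a i).re * Pool.H47EA.sg (ε i)) ^ 2
    set y := (∑ i, (a i).im * Pool.H47EA.sg (ε i)) ^ 2
    have hx : 0 ≤ x := sq_nonneg _
    have hy : 0 ≤ y := sq_nonneg _
    have h := add_pow_le hx hy k
    refine h.trans ?_
    have h2 : (2 : ℝ) ^ (k - 1) ≤ 2 ^ k := pow_le_pow_right₀ (by norm_num) (by omega)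
    have h3 : 0 ≤ x ^ k + y ^ k := by positivity
    exact mul_le_mul_of_nonneg_right h2 h3
  refine (Finset.sum_le_sum fun ε _ => hs ε).trans ?_
  rw [← Finset.mul_sum, Finset.sum_add_distrib]
  have h6 : 0 ≤ (6 * (k : ℝ)) ^ k := by positivity
  calc (2 : ℝ) ^ k * (∑ ε : ι → Bool, (∑ i, (a i).re * Pool.H47EA.sg (ε i)) ^ (2 * k) +
      ∑ ε : ι → Bool, (∑ i, (a i).im * Pool.H47EA.sg (ε i)) ^ (2 * k)) ≤
      2 ^ k * ((6 * (k : ℝ)) ^ k * (∑ i, ‖a i‖ ^ 2) ^ k * 2 ^ Fintype.card ι +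
        (6 * (k : ℝ)) ^ k * (∑ i, ‖a i‖ ^ 2) ^ k * 2 ^ Fintype.card ι) := by
        refine mul_le_mul_of_nonneg_left (add_le_add (hre.trans ?_) (him.trans ?_)) (by positivity)
        · gcongr
        · gcongr
    _ = _ := by
        have e : (12 * (k : ℝ)) ^ k = 2 ^ k * (6 * (k : ℝ)) ^ k := by
          rw [← mul_pow]
          congr 1
          ring
        rw [e]
        ring

/-- Khintchine's inequality -/
theorem khin (p : ℝ) (hp : 2 ≤ p) : ∃ C : ℝ, 0 < C ∧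
    ∀ (ι : Type) [Fintype ι] [DecidableEq ι] (a : ι → ℂ),
    ∑ ε : ι → Bool, ‖∑ i, (if ε i then a i else - a i)‖ₑ ^ p ≤
      ENNReal.ofReal (C * 2 ^ Fintype.card ι) * (∑ i, ‖a i‖ₑ ^ (2 : ℝ)) ^ (p / 2) := by
  set k : ℕ := ⌈p / 2⌉₊ with hk
  have hk1 : 1 ≤ k := Nat.one_le_ceil_iff.2 (by linarith)
  have hkp : p ≤ 2 * k := by
    have := Nat.le_ceil (p / 2)
    rw [← hk] at this
    linarith
  have hk0 : (1 : ℝ) ≤ k := by exact_mod_cast hk1
  have hC0 : (0 : ℝ) < 2 * (12 * (k : ℝ)) ^ k := by positivity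
  refine ⟨(2 * (12 * (k : ℝ)) ^ k) ^ (p / (2 * k : ℝ)), by positivity, fun ι _ _ a => ?_⟩
  have h1 := khi_even k hk1 ι a
  have e1 : ∀ z : ℂ, ‖z‖ₑ ^ (2 * k : ℝ) = ENNReal.ofReal (‖z‖ ^ (2 * k)) := fun z => by
    rw [← ofReal_norm, ENNReal.ofReal_rpow_of_nonneg (norm_nonneg _) (by positivity)]
    congr 1
    rw [← Real.rpow_natCast]
    push_cast
    rfl
  have e2 : ∀ z : ℂ, ‖z‖ₑ ^ (2 : ℝ) = ENNReal.ofReal (‖z‖ ^ 2) := fun z => by
    rw [← ofReal_norm, ENNReal.ofReal_rpow_of_nonneg (norm_nonneg _) (by norm_num),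
      Real.rpow_two]
  have h2 := maxp (κ := ι → Bool) (Fintype.card ι) (by simp) p (2 * k)
    (2 * (12 * (k : ℝ)) ^ k) 1 (by linarith) hkp hC0
    (fun ε => ‖∑ i, (if ε i then a i else - a i)‖ₑ) (∑ i, ‖a i‖ₑ ^ (2 : ℝ)) (by
      simp only [e1, e2]
      rw [← ENNReal.ofReal_sum_of_nonneg fun _ _ => by positivity,
        ← ENNReal.ofReal_sum_of_nonneg fun _ _ => by positivity,
        ENNReal.ofReal_rpow_of_nonneg (Finset.sum_nonneg fun _ _ => by positivity) (by positivity),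
        ← ENNReal.ofReal_mul (by positivity)]
      refine ENNReal.ofReal_le_ofReal (h1.trans (le_of_eq ?_))
      have e3 : (2 * (k : ℝ)) / 2 = k := by ring
      rw [e3]
      simp only [Real.rpow_natCast, Nat.cast_one, one_pow, mul_one])
  refine h2.trans (le_of_eq ?_)
  rw [Nat.cast_one, Real.one_rpow, mul_one, ENNReal.ofReal_mul (by positivity),
    ENNReal.ofReal_pow (by norm_num), ENNReal.ofReal_ofNat]

/-- Minkowski's inequality for powers -/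
lemma mink {α κ : Type} [MeasurableSpace α] {μ : Measure α} (s : Finset κ) (f : κ → α → ℂ)
    (hf : ∀ i, AEStronglyMeasurable (f i) μ) (p : ℝ) (hp : 2 ≤ p) (b : κ → ℝ≥0∞) (Λ : ℝ≥0∞)
    (h : ∀ i ∈ s, ∫⁻ x, ‖f i x‖ₑ ^ p ∂μ ≤ Λ * b i ^ (p / 2)) :
    ∫⁻ x, (∑ i ∈ s, ‖f i x‖ₑ ^ (2 : ℝ)) ^ (p / 2) ∂μ ≤ Λ * (∑ i ∈ s, b i) ^ (p / 2) := by
  have hp0 : 0 < p := by linarith
  have hq1 : (1 : ℝ) ≤ p / 2 := by linarith
  have hq0 : 0 < p / 2 := by linarith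
  have hqe : ENNReal.ofReal (p / 2) ≠ 0 := by
    rw [Ne, ENNReal.ofReal_eq_zero]
    linarith
  set g : κ → α → ℝ := fun i x => ‖f i x‖ ^ 2 with hg
  have hgm : ∀ i, AEStronglyMeasurable (g i) μ := fun i => (hf i).norm.pow 2
  have eg : ∀ i x, ‖g i x‖ₑ = ‖f i x‖ₑ ^ (2 : ℝ) := by
    intro i x
    rw [hg]
    simp only
    rw [← ofReal_norm, ← ofReal_norm, ENNReal.ofReal_rpow_of_nonneg (norm_nonneg _) (by norm_num),
      Real.rpow_two, Real.norm_eq_abs, abs_of_nonneg (by positivity)]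
  have en : ∀ F : α → ℝ, eLpNorm F (ENNReal.ofReal (p / 2)) μ =
      (∫⁻ x, ‖F x‖ₑ ^ (p / 2) ∂μ) ^ (1 / (p / 2)) := by
    intro F
    rw [eLpNorm_eq_lintegral_rpow_enorm_toReal hqe ENNReal.ofReal_ne_top,
      ENNReal.toReal_ofReal hq0.le]
  have h1 : eLpNorm (∑ i ∈ s, g i) (ENNReal.ofReal (p / 2)) μ ≤
      ∑ i ∈ s, eLpNorm (g i) (ENNReal.ofReal (p / 2)) μ :=
    eLpNorm_sum_le (fun i _ => hgm i) (by
      rw [← ENNReal.ofReal_one]
      exact ENNReal.ofReal_le_ofReal hq1)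
  have h2 : ∀ i ∈ s, eLpNorm (g i) (ENNReal.ofReal (p / 2)) μ ≤ Λ ^ (1 / (p / 2)) * b i := by
    intro i hi
    rw [en]
    have h3 : ∫⁻ x, ‖g i x‖ₑ ^ (p / 2) ∂μ ≤ Λ * b i ^ (p / 2) := by
      refine le_trans (le_of_eq ?_) (h i hi)
      refine lintegral_congr fun x => ?_
      rw [eg, ← ENNReal.rpow_mul]
      congr 1
      ring
    refine (ENNReal.rpow_le_rpow h3 (by positivity)).trans (le_of_eq ?_)
    rw [ENNReal.mul_rpow_of_nonneg _ _ (by positivity), ← ENNReal.rpow_mul,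
      mul_one_div_cancel hq0.ne', ENNReal.rpow_one]
  have h3 := h1.trans (Finset.sum_le_sum h2)
  rw [← Finset.mul_sum, en] at h3
  have h4 := ENNReal.rpow_le_rpow h3 hq0.le
  rw [← ENNReal.rpow_mul, one_div_mul_cancel hq0.ne', ENNReal.rpow_one,
    ENNReal.mul_rpow_of_nonneg _ _ hq0.le, ← ENNReal.rpow_mul, one_div_mul_cancel hq0.ne',
    ENNReal.rpow_one] at h4
  refine le_trans (le_of_eq ?_) h4
  refine lintegral_congr fun x => ?_
  congr 1
  simp only [← eg]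
  have h5 : (∑ i ∈ s, g i) x = ∑ i ∈ s, g i x := by simp
  rw [h5]
  simp only [← ofReal_norm]
  rw [← ENNReal.ofReal_sum_of_nonneg fun _ _ => norm_nonneg _]
  congr 1
  have h6 : ∀ i, 0 ≤ g i x := fun i => by rw [hg]; positivity
  rw [Real.norm_eq_abs, abs_of_nonneg (Finset.sum_nonneg fun i _ => h6 i)]
  refine Finset.sum_congr rfl fun i _ => ?_
  rw [Real.norm_eq_abs, abs_of_nonneg (h6 i)]

end Pool.Agent.T9h44.LS
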