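import Pool.Agent.T9h44.LS.M4

/-!
# Random signs on blocks (helper44)
-/

set_option autoImplicit false

namespace Pool.Agent.T9h44.LS

open MeasureTheory Pool.Agent.N303.LS
open scoped ENNReal FourierTransform RealInnerProductSpace SchwartzMap

section

variable {d : ℕ} {ι : Type} [Fintype ι] [DecidableEq ι]

/-- the signs -/
def sgn (b : Bool) : ℂ := if b then 1 else -1

/-- the coefficients: `ε_i` on the block `B_i` -/
def cof (B : ι → Finset (Fin d → ℤ)) (ε : ι → Bool) (m : Fin d → ℤ) : ℂ :=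
  ∑ i, if m ∈ B i then sgn (ε i) else 0

lemma cof_eq (B : ι → Finset (Fin d → ℤ)) (hB : ∀ i j, i ≠ j → Disjoint (B i) (B j))
    (ε : ι → Bool) (i : ι) (m : Fin d → ℤ) (hm : m ∈ B i) : cof B ε m = sgn (ε i) := by
  unfold cof
  rw [Finset.sum_eq_single i]
  · rw [if_pos hm]
  · intro j _ hj
    rw [if_neg fun h => Finset.disjoint_left.1 (hB j i hj) h hm]
  · intro h
    exact absurd (Finset.mem_univ i) h

lemma sum_blocks (B : ι → Finset (Fin d → ℤ)) (hB : ∀ i j, i ≠ j → Disjoint (B i) (B j))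
    (P : (Fin d → ℤ) → Prop) [DecidablePred P]
    (ε : ι → Bool) (F : (Fin d → ℤ) → ℂ) :
    ∑ m ∈ (Finset.univ.biUnion B).filter P, cof B ε m * F m =
      ∑ i, sgn (ε i) * ∑ m ∈ (B i).filter P, F m := by
  rw [Finset.filter_biUnion, Finset.sum_biUnion]
  · refine Finset.sum_congr rfl fun i _ => ?_
    rw [Finset.mul_sum]
    refine Finset.sum_congr rfl fun m hm => ?_
    rw [cof_eq B hB ε i m (Finset.mem_filter.1 hm).1]
  · intro i _ j _ hij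
    exact Finset.disjoint_filter_filter (hB i j hij)

/-- random signs on `Λ(p)` blocks -/
lemma lam_signs (p : ℝ) (hp : 2 ≤ p) (D : ℝ) (hD : 0 < D)
    (hkh : ∀ a : ι → ℂ, ∑ ε : ι → Bool, ‖∑ i, (if ε i then a i else - a i)‖ₑ ^ p ≤
      ENNReal.ofReal (D * 2 ^ Fintype.card ι) * (∑ i, ‖a i‖ₑ ^ (2 : ℝ)) ^ (p / 2))
    (B : ι → Finset (Fin d → ℤ)) (hB : ∀ i j, i ≠ j → Disjoint (B i) (B j))
    (P : (Fin d → ℤ) → Prop) [DecidablePred P] (Λ : ℝ) (hΛ : 0 ≤ Λ)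
    (hL : ∀ i, Lam p Λ ((B i).filter P) (fun _ => 1)) :
    LamM p ((D * 2 ^ Fintype.card ι) ^ (1 / p) * Λ) ((Finset.univ.biUnion B).filter P)
      (fun ε : ι → Bool => cof B ε) := by
  intro c
  have hp0 : 0 < p := by linarith
  set f : ι → E d → ℂ := fun i x => ∑ m ∈ (B i).filter P, c m *
      Complex.exp (((2 * Real.pi * ⟪x, pt m⟫ : ℝ) : ℂ) * Complex.I) with hf
  have hfc : ∀ i, Continuous (f i) := fun i => by
    rw [hf]
    refine continuous_finset_sum _ fun m _ => continuous_const.mul ?_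
    fun_prop
  have e1 : ∀ (ε : ι → Bool) (x : E d), ∑ m ∈ (Finset.univ.biUnion B).filter P, cof B ε m * c m *
      Complex.exp (((2 * Real.pi * ⟪x, pt m⟫ : ℝ) : ℂ) * Complex.I) =
      ∑ i, (if ε i then f i x else - f i x) := by
    intro ε x
    simp only [mul_assoc (cof B ε _)]
    rw [sum_blocks B hB P ε]
    refine Finset.sum_congr rfl fun i _ => ?_
    unfold sgn
    split_ifs
    · rw [one_mul]
    · rw [neg_one_mul]
  simp only [e1]
  set μ : Measure (E d) := volume.restrict {x : E d | ∀ i, x i ∈ Set.Ico (0 : ℝ) 1} with hμ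
  have hcs : ∀ (ε : ι → Bool), Continuous fun x => ∑ i, (if ε i then f i x else - f i x) := by
    intro ε
    refine continuous_finset_sum _ fun i _ => ?_
    by_cases h : ε i = true
    · simp only [h, if_true]
      exact hfc i
    · simp only [h, if_false, Bool.false_eq_true]
      exact (hfc i).neg
  have h1 : ∑ ε : ι → Bool, ∫⁻ x, ‖∑ i, (if ε i then f i x else - f i x)‖ₑ ^ p ∂μ ≤
      ENNReal.ofReal (D * 2 ^ Fintype.card ι) *
        ∫⁻ x, (∑ i, ‖f i x‖ₑ ^ (2 : ℝ)) ^ (p / 2) ∂μ := by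
    rw [← lintegral_finsetSum _ fun ε _ => ((hcs ε).measurable.enorm).pow_const p,
      ← lintegral_const_mul' _ _ ENNReal.ofReal_ne_top]
    exact lintegral_mono fun x => hkh fun i => f i x
  have h2 : ∫⁻ x, (∑ i, ‖f i x‖ₑ ^ (2 : ℝ)) ^ (p / 2) ∂μ ≤
      ENNReal.ofReal (Λ ^ p) * (∑ i, ∑ m ∈ (B i).filter P, ‖c m‖ₑ ^ (2 : ℝ)) ^ (p / 2) := by
    refine mink Finset.univ f (fun i => (hfc i).aestronglyMeasurable) p hp _ _ fun i _ => ?_
    have h3 := hL i c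
    simpa only [one_mul] using h3
  have h4 : ∑ i, ∑ m ∈ (B i).filter P, ‖c m‖ₑ ^ (2 : ℝ) =
      ∑ m ∈ (Finset.univ.biUnion B).filter P, ‖c m‖ₑ ^ (2 : ℝ) := by
    rw [Finset.filter_biUnion, Finset.sum_biUnion]
    intro i _ j _ hij
    exact Finset.disjoint_filter_filter (hB i j hij)
  have e5 : ENNReal.ofReal (((D * 2 ^ Fintype.card ι) ^ (1 / p) * Λ) ^ p) =
      ENNReal.ofReal (D * 2 ^ Fintype.card ι) * ENNReal.ofReal (Λ ^ p) := by
    rw [Real.mul_rpow (by positivity) hΛ, ← Real.rpow_mul (by positivity),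
      one_div_mul_cancel hp0.ne', Real.rpow_one, ← ENNReal.ofReal_mul (by positivity)]
  refine (h1.trans (mul_le_mul' le_rfl h2)).trans (le_of_eq ?_)
  rw [e5, h4, mul_assoc]

/-- sets with few points -/
lemma lam_card (p : ℝ) (hp : 2 ≤ p) (S : Finset (Fin d → ℤ)) (V : ℝ) (hV : (S.card : ℝ) ≤ V) :
    Lam p (((2 : ℝ) ^ d * V ^ (p / 2 - 1)) ^ (1 / p)) S (fun _ => 1) := by
  intro c
  have hp0 : 0 < p := by linarith
  have hV0 : 0 ≤ V := le_trans (by positivity) hV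
  set f : E d → ℂ := fun x => ∑ m ∈ S, c m *
      Complex.exp (((2 * Real.pi * ⟪x, pt m⟫ : ℝ) : ℂ) * Complex.I) with hf
  have hfe : ∀ x, f x = Pool.Agent.N492.LS.tp S c x := fun x => rfl
  set Q : ℝ := ∑ m ∈ S, ‖c m‖ ^ 2 with hQ
  have hQ0 : 0 ≤ Q := Finset.sum_nonneg fun _ _ => by positivity
  have hQe : ∑ m ∈ S, ‖c m‖ₑ ^ (2 : ℝ) = ENNReal.ofReal Q := by
    rw [hQ, ENNReal.ofReal_sum_of_nonneg fun _ _ => by positivity]
    refine Finset.sum_congr rfl fun m _ => ?_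
    rw [← ofReal_norm, ENNReal.ofReal_rpow_of_nonneg (norm_nonneg _) (by norm_num), Real.rpow_two]
  have hsup : ∀ x, ‖f x‖ ^ 2 ≤ V * Q := by
    intro x
    have h1 : ‖f x‖ ≤ ∑ m ∈ S, ‖c m‖ := by
      refine (norm_sum_le _ _).trans (Finset.sum_le_sum fun m _ => ?_)
      rw [norm_mul, Complex.norm_exp_ofReal_mul_I, mul_one]
    have h2 : (∑ m ∈ S, ‖c m‖) ^ 2 ≤ S.card * ∑ m ∈ S, ‖c m‖ ^ 2 :=
      sq_sum_le_card_mul_sum_sq
    calc ‖f x‖ ^ 2 ≤ (∑ m ∈ S, ‖c m‖) ^ 2 := by gcongr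
      _ ≤ S.card * Q := h2
      _ ≤ V * Q := by gcongr
  have hpar : ∫⁻ x in {x : E d | ∀ i, x i ∈ Set.Ico (0 : ℝ) 1}, ENNReal.ofReal (‖f x‖ ^ 2) ≤
      ENNReal.ofReal ((2 : ℝ) ^ d * Q) := by
    have hsub : {x : E d | ∀ i, x i ∈ Set.Ico (0 : ℝ) 1} ⊆ Pool.Agent.N492.LS.cu 1 (0 : E d) := by
      intro x hx i
      have := hx i
      rw [PiLp.zero_apply, sub_zero, abs_of_nonneg this.1]
      push_cast
      exact this.2.le
    refine (lintegral_mono_set hsub).trans ?_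
    have h := Pool.Agent.N492.LS.parseval (d := d) 1 0 S c
    have hint : IntegrableOn (fun x => ‖f x‖ ^ 2) (Pool.Agent.N492.LS.cu 1 (0 : E d)) := by
      refine ContinuousOn.integrableOn_compact (Pool.Agent.N492.LS.cu_compact 1 0) ?_
      exact ((Pool.Agent.N492.LS.cont_tp S c).norm.pow 2).continuousOn
    rw [← ofReal_integral_eq_lintegral_ofReal hint (Filter.Eventually.of_forall fun _ => by positivity)]
    refine ENNReal.ofReal_le_ofReal (le_of_eq ?_)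
    have h2 : ∫ x in Pool.Agent.N492.LS.cu 1 (0 : E d), ‖f x‖ ^ 2 =
        ∫ x in Pool.Agent.N492.LS.cu 1 (0 : E d), ‖Pool.Agent.N492.LS.tp S c x‖ ^ 2 := rfl
    rw [h2, h, hQ]
    push_cast
    ring
  have hpt : ∀ x, ‖∑ m ∈ S, (1 : ℂ) * c m *
      Complex.exp (((2 * Real.pi * ⟪x, pt m⟫ : ℝ) : ℂ) * Complex.I)‖ₑ ^ p ≤
      ENNReal.ofReal ((V * Q) ^ (p / 2 - 1)) * ENNReal.ofReal (‖f x‖ ^ 2) := by
    intro x
    simp only [one_mul]
    show ‖f x‖ₑ ^ p ≤ _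
    rw [← ofReal_norm, ENNReal.ofReal_rpow_of_nonneg (norm_nonneg _) hp0.le,
      ← ENNReal.ofReal_mul (by positivity)]
    refine ENNReal.ofReal_le_ofReal ?_
    have e : ‖f x‖ ^ p = (‖f x‖ ^ 2) ^ (p / 2 - 1) * ‖f x‖ ^ 2 := by
      rcases (norm_nonneg (f x)).eq_or_lt with h0 | h0
      · rw [← h0, Real.zero_rpow hp0.ne']
        simp
      · rw [← Real.rpow_natCast ‖f x‖ 2, ← Real.rpow_mul h0.le, ← Real.rpow_add h0]
        congr 1
        push_cast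
        ring
    rw [e]
    refine mul_le_mul_of_nonneg_right ?_ (by positivity)
    exact Real.rpow_le_rpow (by positivity) (hsup x) (by linarith)
  refine (lintegral_mono fun x => hpt x).trans ?_
  rw [lintegral_const_mul' _ _ ENNReal.ofReal_ne_top]
  refine (mul_le_mul' le_rfl hpar).trans (le_of_eq ?_)
  rw [hQe, ENNReal.ofReal_rpow_of_nonneg hQ0 (by linarith), ← ENNReal.ofReal_mul (by positivity),
    ← ENNReal.ofReal_mul (by positivity), ← Real.rpow_mul (by positivity),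
    one_div_mul_cancel hp0.ne', Real.rpow_one, Real.mul_rpow hV0 hQ0]
  congr 1
  have e : Q ^ (p / 2) = Q ^ (p / 2 - 1) * Q := by
    rcases hQ0.eq_or_lt with h0 | h0
    · rw [← h0, Real.zero_rpow (by linarith), mul_zero]
    · rw [← Real.rpow_add_one h0.ne']
      congr 1
      ring
  rw [e]
  ring

end

/-- general families -/
theorem general (hPD : S_PD) (hBW : S_BW) (hEN : S_EN) (hYOU : S_YOU) (hLPK : S_LPK) (hBP : S_BP)
    (d : ℕ) (p θ s : ℝ) (hp : 2 ≤ p) (hθ : 0 ≤ θ) (hθ2 : θ < 2) (hs : θ < s) (κ : 𝓢(E d, ℂ))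
    (hκ : HasCompactSupport (κ : E d → ℂ)) :
    ∃ C : ℝ, 0 < C ∧ ∀ (Ω : Type) [Fintype Ω] (T : Finset (Fin d → ℤ)) (a : Ω → (Fin d → ℤ) → ℂ)
    (A : ℝ), 0 ≤ A →
    (∀ R : ℕ, 1 ≤ R → LamM p (A * (R : ℝ) ^ θ) (T.filter fun m => ∀ i, |m i| < R) a) →
    ∀ (u₀ u₁ : 𝓢(E d, ℂ)), ∀ t : ℝ, 0 ≤ t → t ≤ 2 →
      ∑ ω, ∫⁻ x : E d, ‖wave
        (fun ξ => (∑ m ∈ T, a ω m * κ (ξ - pt m)) * 𝓕 (u₀ : E d → ℂ) ξ)
        (fun ξ => (∑ m ∈ T, a ω m * κ (ξ - pt m)) * 𝓕 (u₁ : E d → ℂ) ξ) t x‖ₑ ^ p ≤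
        ENNReal.ofReal (C * A ^ p) *
          ((∫⁻ x : E d, ‖inv (fun ξ => bes s ξ * 𝓕 (u₀ : E d → ℂ) ξ) x‖ₑ ^ p) +
            ∫⁻ x : E d, ‖inv (fun ξ => bes (s - 1) ξ * 𝓕 (u₁ : E d → ℂ) ξ) x‖ₑ ^ p) := by
  obtain ⟨r, hr⟩ := hκ.isCompact.isBounded.subset_closedBall 0
  obtain ⟨L, hL⟩ := exists_nat_ge r
  have hK : ∀ ξ, 𝓕 ((𝓕⁻ κ : 𝓢(E d, ℂ)) : E d → ℂ) ξ = κ ξ := by
    intro ξ
    rw [← SchwartzMap.fourier_coe, FourierTransform.fourier_fourierInv_eq]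
  obtain ⟨C, hC, h⟩ := fin6M hPD hBW hEN hYOU hLPK hBP d p θ s hp hθ hθ2 hs (𝓕⁻ κ) L (by
    intro ξ hξ
    rw [hK]
    by_contra hne
    have h1 : ξ ∈ tsupport (κ : E d → ℂ) := subset_tsupport _ hne
    have h2 := hr h1
    rw [Metric.mem_closedBall, dist_zero_right] at h2
    obtain ⟨i, hi⟩ := hξ
    have h3 : |ξ i| ≤ ‖ξ‖ := by
      have := PiLp.norm_apply_le ξ i
      rwa [Real.norm_eq_abs] at this
    linarith)
  refine ⟨C, hC, ?_⟩
  intro Ω _ T a A hA hT u₀ u₁ t ht0 ht2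
  have h1 := h Ω T a A hA hT u₀ u₁ t ht0 ht2
  have e : ∀ ω ξ, psia (𝓕⁻ κ) T (a ω) ξ = ∑ m ∈ T, a ω m * κ (ξ - pt m) := by
    intro ω ξ
    unfold psia
    simp only [hK]
  simp only [e] at h1
  exact h1

end Pool.Agent.T9h44.LS
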